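import Mathlib

open Filter Topology

namespace Pool.Agent.Results.MP_45e0c4_an.NoSuperADP

/-- The super alternative Daugavet property: for all `x` in the unit sphere, all relatively weakly
open subsets `W ∩ B_X` of the unit ball which meet the unit sphere and all `ε > 0` there are
`y ∈ W ∩ B_X` and `θ` of modulus one with `‖x + θ y‖ > 2 - ε`. -/
def SuperADP (𝕜 : Type*) [RCLike 𝕜] (X : Type*) [NormedAddCommGroup X] [NormedSpace 𝕜 X] : Prop :=
  ∀ x : X, ‖x‖ = 1 → ∀ W : Set (WeakSpace 𝕜 X), IsOpen W →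
    (∃ w : X, ‖w‖ = 1 ∧ toWeakSpace 𝕜 X w ∈ W) → ∀ ε : ℝ, 0 < ε →
      ∃ (y : X) (θ : 𝕜), toWeakSpace 𝕜 X y ∈ W ∧ ‖y‖ ≤ 1 ∧ ‖θ‖ = 1 ∧ 2 - ε < ‖x + θ • y‖

variable {𝕜 : Type*} [RCLike 𝕜] {X : Type*} [NormedAddCommGroup X] [NormedSpace 𝕜 X]

/-- Weak neighbourhoods determined by finitely many functionals. -/
theorem SuperADP.use (h : SuperADP 𝕜 X) (hinf : ¬ FiniteDimensional 𝕜 X) {ι : Type*}
    (H : Finset ι) (g : ι → StrongDual 𝕜 X) {x y0 : X} (hx : ‖x‖ = 1) (hy0 : ‖y0‖ ≤ 1) {η ε : ℝ}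
    (hη : 0 < η) (hε : 0 < ε) :
    ∃ (y : X) (θ : 𝕜), (∀ n ∈ H, ‖g n y - g n y0‖ < η) ∧ ‖y‖ ≤ 1 ∧ ‖θ‖ = 1 ∧
      2 - ε < ‖x + θ • y‖ := by
  classical
  -- a vector in the kernel
  obtain ⟨v, hv, hgv⟩ : ∃ v : X, v ≠ 0 ∧ ∀ n ∈ H, g n v = 0 := by
    by_contra hcon
    push Not at hcon
    apply hinf
    let T : X →ₗ[𝕜] (H → 𝕜) := LinearMap.pi (fun k => (g k : X →ₗ[𝕜] 𝕜))
    have hT : Function.Injective T := by
      intro a b hab
      by_contra hne
      obtain ⟨k, hk, hk'⟩ := hcon (a - b) (sub_ne_zero.mpr hne)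
      apply hk'
      have h1 : g k a = g k b := congrFun hab ⟨k, hk⟩
      rw [map_sub, h1, sub_self]
    exact Module.Finite.of_injective T hT
  have hv' : 0 < ‖v‖ := norm_pos_iff.mpr hv
  -- a point of the unit sphere
  obtain ⟨t, ht⟩ : ∃ t : ℝ, ‖y0 + (t : 𝕜) • v‖ = 1 := by
    have hc : ContinuousOn (fun t : ℝ => ‖y0 + (t : 𝕜) • v‖) (Set.Icc 0 (2 / ‖v‖)) := by
      apply Continuous.continuousOn
      exact (continuous_const.add ((RCLike.continuous_ofReal).smul continuous_const)).norm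
    have h1 := intermediate_value_Icc (by positivity : (0 : ℝ) ≤ 2 / ‖v‖) hc
    have h2 : (1 : ℝ) ∈ Set.Icc ((fun t : ℝ => ‖y0 + (t : 𝕜) • v‖) 0)
        ((fun t : ℝ => ‖y0 + (t : 𝕜) • v‖) (2 / ‖v‖)) := by
      constructor
      · simpa using hy0
      · show 1 ≤ ‖y0 + ((2 / ‖v‖ : ℝ) : 𝕜) • v‖
        have h3 : ‖((2 / ‖v‖ : ℝ) : 𝕜) • v‖ = 2 := by
          rw [norm_smul, RCLike.norm_ofReal, abs_of_nonneg (by positivity)]
          field_simp
        have h4 := norm_sub_norm_le (((2 / ‖v‖ : ℝ) : 𝕜) • v) (-y0)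
        rw [norm_neg, sub_neg_eq_add, h3, add_comm] at h4
        linarith
    obtain ⟨t, -, ht⟩ := h1 h2
    exact ⟨t, ht⟩
  -- the open set
  let W : Set (WeakSpace 𝕜 X) := ⋂ n ∈ H, {u | ‖g n ((toWeakSpace 𝕜 X).symm u) - g n y0‖ < η}
  have hW : IsOpen W := by
    apply isOpen_biInter_finset
    intro n _
    have h1 : Continuous (fun u : WeakSpace 𝕜 X => g n ((toWeakSpace 𝕜 X).symm u)) :=
      WeakBilin.eval_continuous (topDualPairing 𝕜 X).flip (g n)
    exact isOpen_lt (h1.sub continuous_const).norm continuous_const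
  have hmem : ∀ u : X, toWeakSpace 𝕜 X u ∈ W ↔ ∀ n ∈ H, ‖g n u - g n y0‖ < η := by
    intro u
    show (_ ∈ ⋂ n ∈ H, _) ↔ _
    simp only [Set.mem_iInter]
    rfl
  obtain ⟨y, θ, h1, h2, h3, h4⟩ := h x hx W hW ⟨y0 + (t : 𝕜) • v, ht, by
    rw [hmem]
    intro n hn
    rw [map_add, map_smul, hgv n hn, smul_zero, add_zero, sub_self, norm_zero]
    exact hη⟩ ε hε
  exact ⟨y, θ, (hmem y).mp h1, h2, h3, h4⟩

/-- A complex number of modulus at most one with real part near one is near one. -/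
theorem near_one {u : 𝕜} {κ τ : ℝ} (hu : ‖u‖ ≤ 1) (hre : 1 - κ < RCLike.re u) (hτ : 0 ≤ τ)
    (hκ : 2 * κ ≤ τ ^ 2) : ‖u - 1‖ ≤ τ := by
  apply le_of_sq_le_sq _ hτ
  have h1 : ‖u - 1‖ ^ 2 = ‖u‖ ^ 2 - 2 * RCLike.re u + 1 := by
    rw [RCLike.norm_sq_eq_def, RCLike.norm_sq_eq_def]
    simp only [map_sub, RCLike.one_re, RCLike.one_im]
    ring
  rw [h1]
  nlinarith [norm_nonneg u]

variable {β : Type*} (b : UnconditionalSchauderBasis β 𝕜 X)

/-- Coordinates of projections. -/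
theorem coord_proj [DecidableEq β] (A : Finset β) (v : X) (n : β) :
    b.coord n (b.proj A v) = if n ∈ A then b.coord n v else 0 := by
  classical
  rw [GeneralSchauderBasis.proj_apply, map_sum]
  simp only [map_smul, b.ortho, Pi.single_apply, smul_eq_mul, mul_ite, mul_one, mul_zero]
  rw [Finset.sum_ite_eq]

theorem proj_proj [DecidableEq β] {A B : Finset β} (hAB : A ⊆ B) (v : X) :
    b.proj B (b.proj A v) = b.proj A v := by
  rw [GeneralSchauderBasis.proj_apply b B]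
  simp only [coord_proj, ite_smul, zero_smul]
  rw [Finset.sum_ite_mem, Finset.inter_eq_right.mpr hAB, GeneralSchauderBasis.proj_apply]

theorem proj_mono [DecidableEq β] {A B : Finset β} (hAB : A ⊆ B) {v : X} (hv : b.proj A v = v) :
    b.proj B v = v := by
  rw [← hv]; exact proj_proj b hAB v

/-- The slice condition. -/
def Slice (x : X) (δ : ℝ) (Ψ : StrongDual 𝕜 X) : Prop := ‖Ψ‖ ≤ 1 ∧ 1 - δ < RCLike.re (Ψ x)

/-- One use of the super ADP. -/
theorem one_use [DecidableEq β] (h : SuperADP 𝕜 X) (hinf : ¬ FiniteDimensional 𝕜 X) {x y0 : X}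
    {H : Finset β} (hx : ‖x‖ = 1) {δ : ℝ} (hδ : 0 < δ) (hy0 : ‖y0‖ ≤ 1) (hH : b.proj H y0 = y0)
    {τ : ℝ} (hτ : 0 < τ) :
    ∃ (x' : X) (δ' : ℝ), ‖x'‖ = 1 ∧ 0 < δ' ∧
      (∀ Ψ : StrongDual 𝕜 X, Slice x' δ' Ψ → Slice x δ Ψ) ∧
      ∃ (θ : 𝕜) (F : Finset β) (z : X), ‖θ‖ = 1 ∧ Disjoint F H ∧ b.proj F z = z ∧
        ‖y0 + z‖ ≤ 1 + τ ∧ ∀ Ψ : StrongDual 𝕜 X, Slice x' δ' Ψ → ‖θ * Ψ (y0 + z) - 1‖ ≤ τ := by
  classical
  set σ : ℝ := ∑ n ∈ H, ‖b n‖ with hσ
  have hσ0 : 0 ≤ σ := Finset.sum_nonneg (fun _ _ => norm_nonneg _)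
  set η : ℝ := τ / (4 * (1 + σ)) with hη
  have hη0 : 0 < η := by positivity
  set ε : ℝ := min (min (δ / 4) (τ ^ 2 / 32)) (1 / 2) with hε
  have hε0 : 0 < ε := by
    apply lt_min (lt_min (by positivity) (by positivity)) (by norm_num)
  have hε1 : ε ≤ δ / 4 := (min_le_left _ _).trans (min_le_left _ _)
  have hε2 : ε ≤ τ ^ 2 / 32 := (min_le_left _ _).trans (min_le_right _ _)
  have hε3 : ε ≤ 1 / 2 := min_le_right _ _
  obtain ⟨y, θ, hyH, hy1, hθ, hbig⟩ := h.use hinf H b.coord hx hy0 hη0 hε0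
  have hne : 0 < ‖x + θ • y‖ := by linarith
  -- the new slice
  have hslice : ∀ Ψ : StrongDual 𝕜 X, Slice (((‖x + θ • y‖⁻¹ : ℝ) : 𝕜) • (x + θ • y)) ε Ψ →
      1 - 3 * ε < RCLike.re (Ψ x) ∧ 1 - 3 * ε < RCLike.re (θ * Ψ y) ∧ ‖θ * Ψ y‖ ≤ 1 := by
    rintro Ψ ⟨hΨ1, hΨ2⟩
    have h1 : ∀ v : X, ‖v‖ ≤ 1 → ‖Ψ v‖ ≤ 1 := by
      intro v hv
      calc ‖Ψ v‖ ≤ ‖Ψ‖ * ‖v‖ := Ψ.le_opNorm v
        _ ≤ 1 * 1 := mul_le_mul hΨ1 hv (norm_nonneg _) zero_le_one
        _ = 1 := one_mul 1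
    have h2 : ‖θ * Ψ y‖ ≤ 1 := by
      rw [norm_mul, hθ, one_mul]; exact h1 y hy1
    have h3 : RCLike.re (θ * Ψ y) ≤ 1 := (RCLike.re_le_norm _).trans h2
    have h4 : RCLike.re (Ψ x) ≤ 1 := (RCLike.re_le_norm _).trans (h1 x hx.le)
    have h5 : RCLike.re (Ψ (((‖x + θ • y‖⁻¹ : ℝ) : 𝕜) • (x + θ • y))) =
        ‖x + θ • y‖⁻¹ * (RCLike.re (Ψ x) + RCLike.re (θ * Ψ y)) := by
      rw [map_smul, smul_eq_mul, RCLike.re_ofReal_mul, map_add, map_smul, smul_eq_mul, map_add]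
    rw [h5] at hΨ2
    have h6 : (1 - ε) * ‖x + θ • y‖ < RCLike.re (Ψ x) + RCLike.re (θ * Ψ y) := by
      have := mul_lt_mul_of_pos_right hΨ2 hne
      rwa [mul_comm (‖x + θ • y‖⁻¹), mul_assoc, inv_mul_cancel₀ hne.ne', mul_one] at this
    have h7 : 2 - 3 * ε < (1 - ε) * ‖x + θ • y‖ := by nlinarith
    exact ⟨by linarith, by linarith, h2⟩
  -- the finite approximation
  obtain ⟨H', hHH', hH'⟩ : ∃ H' : Finset β, H ⊆ H' ∧ ‖b.proj H' y - y‖ < τ / 4 := by
    have h1 := b.tendsto_proj y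
    rw [SummationFilter.unconditional_filter] at h1
    have h2 := (Metric.tendsto_atTop.mp h1) (τ / 4) (by positivity)
    obtain ⟨H0, hH0⟩ := h2
    refine ⟨H0 ∪ H, Finset.subset_union_right, ?_⟩
    have := hH0 (H0 ∪ H) Finset.subset_union_left
    rwa [dist_eq_norm] at this
  have hPH : ‖b.proj H y - y0‖ ≤ τ / 4 := by
    have h1 : b.proj H y - y0 = ∑ n ∈ H, (b.coord n y - b.coord n y0) • b n := by
      conv_lhs => rw [← hH]
      rw [GeneralSchauderBasis.proj_apply, GeneralSchauderBasis.proj_apply,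
        ← Finset.sum_sub_distrib]
      exact Finset.sum_congr rfl (fun n _ => (sub_smul _ _ _).symm)
    rw [h1]
    calc ‖∑ n ∈ H, (b.coord n y - b.coord n y0) • b n‖ ≤ ∑ n ∈ H, η * ‖b n‖ := by
          refine (norm_sum_le _ _).trans (Finset.sum_le_sum (fun n hn => ?_))
          rw [norm_smul]
          exact mul_le_mul_of_nonneg_right (hyH n hn).le (norm_nonneg _)
      _ = η * σ := by rw [Finset.mul_sum]
      _ ≤ τ / 4 := by
          rw [hη, div_mul_eq_mul_div, div_le_div_iff₀ (by positivity) (by norm_num)]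
          nlinarith
  set z : X := b.proj (H' \ H) y with hz
  have hclose : ‖(y0 + z) - y‖ ≤ τ / 2 := by
    have h1 : b.proj H' y = b.proj H y + z := by
      rw [hz]
      simp only [GeneralSchauderBasis.proj_apply]
      rw [add_comm, Finset.sum_sdiff hHH']
    have h2 : (y0 + z) - y = (b.proj H' y - y) - (b.proj H y - y0) := by rw [h1]; abel
    rw [h2]
    refine (norm_sub_le _ _).trans ?_
    linarith
  refine ⟨((‖x + θ • y‖⁻¹ : ℝ) : 𝕜) • (x + θ • y), ε, ?_, hε0, ?_, θ, H' \ H, z, hθ,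
    Finset.sdiff_disjoint, ?_, ?_, ?_⟩
  · rw [norm_smul, RCLike.norm_ofReal, abs_of_nonneg (by positivity), inv_mul_cancel₀ hne.ne']
  · intro Ψ hΨ
    refine ⟨hΨ.1, ?_⟩
    have := (hslice Ψ hΨ).1
    linarith
  · rw [hz]; exact proj_proj b (Finset.Subset.refl _) y
  · calc ‖y0 + z‖ = ‖y + ((y0 + z) - y)‖ := by rw [add_sub_cancel]
      _ ≤ ‖y‖ + ‖(y0 + z) - y‖ := norm_add_le _ _
      _ ≤ 1 + τ := by linarith
  · intro Ψ hΨ
    obtain ⟨-, h2, h3⟩ := hslice Ψ hΨ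
    have h4 : ‖θ * Ψ y - 1‖ ≤ τ / 2 := near_one h3 h2 (by positivity) (by nlinarith)
    have h5 : ‖θ * Ψ (y0 + z) - θ * Ψ y‖ ≤ τ / 2 := by
      rw [← mul_sub, norm_mul, hθ, one_mul, ← map_sub]
      refine (Ψ.le_opNorm _).trans ?_
      calc ‖Ψ‖ * ‖y0 + z - y‖ ≤ 1 * ‖y0 + z - y‖ :=
            mul_le_mul_of_nonneg_right hΨ.1 (norm_nonneg _)
        _ ≤ τ / 2 := by rw [one_mul]; exact hclose
    calc ‖θ * Ψ (y0 + z) - 1‖ = ‖(θ * Ψ (y0 + z) - θ * Ψ y) + (θ * Ψ y - 1)‖ := by ring_nf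
      _ ≤ ‖θ * Ψ (y0 + z) - θ * Ψ y‖ + ‖θ * Ψ y - 1‖ := norm_add_le _ _
      _ ≤ τ := by linarith


/-- The sum of the moduli of `Ψ` on the coordinates of `y` in `F`. -/
noncomputable def V (F : Finset β) (Ψ : StrongDual 𝕜 X) (y : X) : ℝ :=
  ∑ n ∈ F, ‖b.coord n y‖ * ‖Ψ (b n)‖

theorem le_V {F : Finset β} (Ψ : StrongDual 𝕜 X) {y : X} (hy : b.proj F y = y) :
    ‖Ψ y‖ ≤ V b F Ψ y := by
  conv_lhs => rw [← hy]
  rw [GeneralSchauderBasis.proj_apply, map_sum]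
  refine (norm_sum_le _ _).trans (Finset.sum_le_sum (fun n _ => ?_))
  rw [map_smul, norm_smul]

theorem coord_off [DecidableEq β] {F : Finset β} {y : X} (hy : b.proj F y = y) {n : β}
    (hn : n ∉ F) : b.coord n y = 0 := by
  rw [← hy, coord_proj, if_neg hn]

/-- The main inductive claim. -/
theorem main_claim [DecidableEq β] (h : SuperADP 𝕜 X) (hinf : ¬ FiniteDimensional 𝕜 X) (m : ℕ) :
    ∀ (x : X) (δ : ℝ) (G : Finset β) (τ : ℝ), ‖x‖ = 1 → 0 < δ → 0 < τ →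
      ∃ (x' : X) (δ' : ℝ), ‖x'‖ = 1 ∧ 0 < δ' ∧
        (∀ Ψ : StrongDual 𝕜 X, Slice x' δ' Ψ → Slice x δ Ψ) ∧
        ∃ (F : Finset β) (y : X), Disjoint F G ∧ b.proj F y = y ∧ ‖y‖ ≤ 1 ∧
          ∀ Ψ : StrongDual 𝕜 X, Slice x' δ' Ψ → ‖Ψ y - 1‖ ≤ τ ∧ (m : ℝ) - τ ≤ V b F Ψ y := by
  induction m with
  | zero =>
    intro x δ G τ hx hδ hτ
    obtain ⟨x', δ', hx', hδ', hsub, θ, F, z, hθ, hFG, hFz, hz, hΨ⟩ :=
      one_use b h hinf (H := G) (y0 := 0) hx hδ (by simp) (by simp) (half_pos hτ)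
    simp only [zero_add] at hz hΨ
    set c : ℝ := (1 + τ / 2)⁻¹ with hc
    have hc0 : 0 < c := by positivity
    have hc1 : c ≤ 1 := inv_le_one_of_one_le₀ (by linarith)
    have hc2 : c * (1 + τ / 2) = 1 := inv_mul_cancel₀ (by positivity)
    refine ⟨x', δ', hx', hδ', hsub, F, ((c : 𝕜) * θ) • z, hFG, ?_, ?_, ?_⟩
    · rw [map_smul, hFz]
    · rw [norm_smul, norm_mul, hθ, mul_one, RCLike.norm_ofReal, abs_of_pos hc0]
      calc c * ‖z‖ ≤ c * (1 + τ / 2) := mul_le_mul_of_nonneg_left hz hc0.le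
        _ = 1 := hc2
    · intro Ψ hΨs
      refine ⟨?_, ?_⟩
      · have h1 : Ψ (((c : 𝕜) * θ) • z) - 1 = (c : 𝕜) * (θ * Ψ z - 1) - ((1 - c : ℝ) : 𝕜) := by
          rw [map_smul, smul_eq_mul]; push_cast; ring
        rw [h1]
        refine (norm_sub_le _ _).trans ?_
        rw [norm_mul, RCLike.norm_ofReal, RCLike.norm_ofReal, abs_of_pos hc0,
          abs_of_nonneg (by linarith)]
        have h2 := hΨ Ψ hΨs
        nlinarith
      · have h3 : 0 ≤ V b F Ψ (((c : 𝕜) * θ) • z) :=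
          Finset.sum_nonneg (fun _ _ => by positivity)
        push_cast; linarith
  | succ m ih =>
    intro x δ G τ hx hδ hτ
    set τ1 : ℝ := τ / (6 + 2 * (m + 1)) with hτ1
    have hτ1pos : 0 < τ1 := by positivity
    have hττ : τ1 * (6 + 2 * (m + 1)) = τ := by rw [hτ1]; field_simp
    obtain ⟨x1, δ1, hx1, hδ1, hsub1, F1, y1, hF1G, hF1y, hy1, hΨ1⟩ := ih x δ G τ1 hx hδ hτ1pos
    obtain ⟨x2, δ2, hx2, hδ2, hsub2, F2, y2, hF2G, hF2y, hy2, hΨ2⟩ :=
      ih x1 δ1 (G ∪ F1) τ1 hx1 hδ1 hτ1pos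
    set y0 : X := (2⁻¹ : 𝕜) • (y1 - y2) with hy0
    have hn2 : ‖(2⁻¹ : 𝕜)‖ = 2⁻¹ := by rw [norm_inv, RCLike.norm_two]
    have hy0n : ‖y0‖ ≤ 1 := by
      rw [hy0, norm_smul, hn2]
      have := norm_sub_le y1 y2
      linarith
    set H : Finset β := G ∪ F1 ∪ F2 with hH
    have hF1H : F1 ⊆ H := fun n hn => by
      rw [hH]; exact Finset.mem_union_left _ (Finset.mem_union_right _ hn)
    have hF2H : F2 ⊆ H := fun n hn => by
      rw [hH]; exact Finset.mem_union_right _ hn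
    have hHy0 : b.proj H y0 = y0 := by
      rw [hy0, map_smul, map_sub, proj_mono b hF1H hF1y, proj_mono b hF2H hF2y]
    obtain ⟨x', δ', hx', hδ', hsub, θ, F3, z, hθ, hF3H, hF3z, hz, hΨ⟩ :=
      one_use b h hinf (H := H) (y0 := y0) hx2 hδ2 hy0n hHy0 hτ1pos
    set c : ℝ := (1 + τ1)⁻¹ with hc
    have hc0 : 0 < c := by positivity
    have hc1 : c ≤ 1 := inv_le_one_of_one_le₀ (by linarith)
    have hc2 : c * (1 + τ1) = 1 := inv_mul_cancel₀ (by positivity)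
    have hc3 : 1 - c ≤ τ1 := by nlinarith
    -- disjointness
    have hd12 : Disjoint F1 F2 := by
      rw [Finset.disjoint_left]
      intro n h1 h2
      exact (Finset.disjoint_left.mp hF2G h2) (Finset.mem_union_right _ h1)
    have hd13 : Disjoint F1 F3 := by
      rw [Finset.disjoint_left]
      intro n h1 h2
      exact (Finset.disjoint_left.mp hF3H h2) (hF1H h1)
    have hd23 : Disjoint F2 F3 := by
      rw [Finset.disjoint_left]
      intro n h1 h2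
      exact (Finset.disjoint_left.mp hF3H h2) (hF2H h1)
    have hd : Disjoint (F1 ∪ F2) F3 := Finset.disjoint_union_left.mpr ⟨hd13, hd23⟩
    set F : Finset β := F1 ∪ F2 ∪ F3 with hF
    have hs1 : F1 ⊆ F := fun n hn => Finset.mem_union_left _ (Finset.mem_union_left _ hn)
    have hs2 : F2 ⊆ F := fun n hn => Finset.mem_union_left _ (Finset.mem_union_right _ hn)
    have hs3 : F3 ⊆ F := fun n hn => Finset.mem_union_right _ hn
    have hcθ : ‖(c : 𝕜) * θ‖ = c := by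
      rw [norm_mul, hθ, mul_one, RCLike.norm_ofReal, abs_of_pos hc0]
    refine ⟨x', δ', hx', hδ', fun Ψ hs => hsub1 Ψ (hsub2 Ψ (hsub Ψ hs)), F,
      ((c : 𝕜) * θ) • (y0 + z), ?_, ?_, ?_, ?_⟩
    · rw [hF, Finset.disjoint_union_left, Finset.disjoint_union_left]
      refine ⟨⟨hF1G, ?_⟩, ?_⟩
      · rw [Finset.disjoint_left]
        intro n h1 h2
        exact (Finset.disjoint_left.mp hF2G h1) (Finset.mem_union_left _ h2)
      · rw [Finset.disjoint_left]
        intro n h1 h2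
        refine (Finset.disjoint_left.mp hF3H h1) ?_
        rw [hH]; exact Finset.mem_union_left _ (Finset.mem_union_left _ h2)
    · rw [map_smul, map_add, proj_mono b hs3 hF3z]
      congr 2
      rw [hy0, map_smul, map_sub, proj_mono b hs1 hF1y, proj_mono b hs2 hF2y]
    · rw [norm_smul, hcθ]
      calc c * ‖y0 + z‖ ≤ c * (1 + τ1) := mul_le_mul_of_nonneg_left hz hc0.le
        _ = 1 := hc2
    · intro Ψ hs
      have hs2' := hsub Ψ hs
      have hs1' := hsub2 Ψ hs2'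
      obtain ⟨ha1, hb1⟩ := hΨ1 Ψ hs1'
      obtain ⟨ha2, hb2⟩ := hΨ2 Ψ hs2'
      have ha3 := hΨ Ψ hs
      refine ⟨?_, ?_⟩
      · have h1 : Ψ (((c : 𝕜) * θ) • (y0 + z)) - 1 =
            (c : 𝕜) * (θ * Ψ (y0 + z) - 1) - ((1 - c : ℝ) : 𝕜) := by
          rw [map_smul, smul_eq_mul]; push_cast; ring
        rw [h1]
        refine (norm_sub_le _ _).trans ?_
        rw [norm_mul, RCLike.norm_ofReal, RCLike.norm_ofReal, abs_of_pos hc0,
          abs_of_nonneg (by linarith)]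
        have hm0 : (0 : ℝ) ≤ m := Nat.cast_nonneg m
        nlinarith
      · -- the value of `Ψ` on `y0` is small
        have hΨy0 : ‖Ψ y0‖ ≤ τ1 := by
          have h1 : Ψ y0 = (2⁻¹ : 𝕜) * ((Ψ y1 - 1) - (Ψ y2 - 1)) := by
            rw [hy0, map_smul, map_sub, smul_eq_mul]; ring
          rw [h1, norm_mul, hn2]
          have := norm_sub_le (Ψ y1 - 1) (Ψ y2 - 1)
          linarith
        have hΨz : 1 - 2 * τ1 ≤ ‖Ψ z‖ := by
          have h1 : (1 : 𝕜) = θ * Ψ z + (θ * Ψ y0 - (θ * Ψ (y0 + z) - 1)) := by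
            rw [map_add]; ring
          have h2 : (1 : ℝ) ≤ ‖θ * Ψ z‖ + (‖θ * Ψ y0‖ + ‖θ * Ψ (y0 + z) - 1‖) := by
            calc (1 : ℝ) = ‖(1 : 𝕜)‖ := norm_one.symm
              _ = ‖θ * Ψ z + (θ * Ψ y0 - (θ * Ψ (y0 + z) - 1))‖ := by rw [← h1]
              _ ≤ ‖θ * Ψ z‖ + ‖θ * Ψ y0 - (θ * Ψ (y0 + z) - 1)‖ := norm_add_le _ _
              _ ≤ _ := by gcongr; exact norm_sub_le _ _
          rw [norm_mul, norm_mul, hθ, one_mul, one_mul] at h2
          linarith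
        have hsplit : V b F Ψ (((c : 𝕜) * θ) • (y0 + z)) =
            V b F1 Ψ (((c : 𝕜) * θ) • (y0 + z)) + V b F2 Ψ (((c : 𝕜) * θ) • (y0 + z)) +
              V b F3 Ψ (((c : 𝕜) * θ) • (y0 + z)) := by
          unfold V
          rw [hF, Finset.sum_union hd, Finset.sum_union hd12]
        have hV1 : V b F1 Ψ (((c : 𝕜) * θ) • (y0 + z)) = c / 2 * V b F1 Ψ y1 := by
          unfold V
          rw [Finset.mul_sum]
          refine Finset.sum_congr rfl (fun n hn => ?_)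
          have h1 : b.coord n y2 = 0 :=
            coord_off b hF2y (fun h => Finset.disjoint_left.mp hd12 hn h)
          have h2 : b.coord n z = 0 :=
            coord_off b hF3z (fun h => Finset.disjoint_left.mp hd13 hn h)
          rw [map_smul, smul_eq_mul, norm_mul, hcθ, map_add, h2, add_zero, hy0, map_smul, map_sub,
            h1, sub_zero, norm_smul, hn2]
          ring
        have hV2 : V b F2 Ψ (((c : 𝕜) * θ) • (y0 + z)) = c / 2 * V b F2 Ψ y2 := by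
          unfold V
          rw [Finset.mul_sum]
          refine Finset.sum_congr rfl (fun n hn => ?_)
          have h1 : b.coord n y1 = 0 :=
            coord_off b hF1y (fun h => Finset.disjoint_left.mp hd12 h hn)
          have h2 : b.coord n z = 0 :=
            coord_off b hF3z (fun h => Finset.disjoint_left.mp hd23 hn h)
          rw [map_smul, smul_eq_mul, norm_mul, hcθ, map_add, h2, add_zero, hy0, map_smul, map_sub,
            h1, zero_sub, norm_smul, hn2, norm_neg]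
          ring
        have hV3 : V b F3 Ψ (((c : 𝕜) * θ) • (y0 + z)) = c * V b F3 Ψ z := by
          unfold V
          rw [Finset.mul_sum]
          refine Finset.sum_congr rfl (fun n hn => ?_)
          have h1 : b.coord n y1 = 0 :=
            coord_off b hF1y (fun h => Finset.disjoint_left.mp hd13 h hn)
          have h2 : b.coord n y2 = 0 :=
            coord_off b hF2y (fun h => Finset.disjoint_left.mp hd23 h hn)
          rw [map_smul, smul_eq_mul, norm_mul, hcθ, map_add, hy0, map_smul, map_sub,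
            h1, h2, sub_zero, smul_zero, zero_add]
          ring
        have hz3 := le_V b Ψ hF3z
        rw [hsplit, hV1, hV2, hV3]
        have hm0 : (0 : ℝ) ≤ m := Nat.cast_nonneg m
        have h5 : c / 2 * ((m : ℝ) - τ1) ≤ c / 2 * V b F1 Ψ y1 :=
          mul_le_mul_of_nonneg_left hb1 (by positivity)
        have h6 : c / 2 * ((m : ℝ) - τ1) ≤ c / 2 * V b F2 Ψ y2 :=
          mul_le_mul_of_nonneg_left hb2 (by positivity)
        have h7 : c * (1 - 2 * τ1) ≤ c * V b F3 Ψ z :=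
          mul_le_mul_of_nonneg_left (by linarith) hc0.le
        have h8 : ((m : ℝ) + 1) * (1 - c) ≤ ((m : ℝ) + 1) * τ1 :=
          mul_le_mul_of_nonneg_left hc3 (by positivity)
        push_cast
        nlinarith

/-- A finite family of scalars with all partial sums small. -/
theorem sum_norm_le_four {ι : Type*} (F : Finset ι) (z : ι → 𝕜) {K : ℝ}
    (hK : ∀ A ⊆ F, ‖∑ n ∈ A, z n‖ ≤ K) : ∑ n ∈ F, ‖z n‖ ≤ 4 * K := by
  classical
  have key : ∀ φ : ι → ℝ, (∀ A ⊆ F, |∑ n ∈ A, φ n| ≤ K) → ∑ n ∈ F, |φ n| ≤ 2 * K := by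
    intro φ hφ
    rw [← Finset.sum_filter_add_sum_filter_not F (fun n => 0 ≤ φ n)]
    have h1 : ∑ n ∈ F.filter (fun n => 0 ≤ φ n), |φ n| = ∑ n ∈ F.filter (fun n => 0 ≤ φ n), φ n :=
      Finset.sum_congr rfl (fun n hn => abs_of_nonneg (Finset.mem_filter.mp hn).2)
    have h2 : ∑ n ∈ F.filter (fun n => ¬ 0 ≤ φ n), |φ n| =
        -∑ n ∈ F.filter (fun n => ¬ 0 ≤ φ n), φ n := by
      rw [← Finset.sum_neg_distrib]
      exact Finset.sum_congr rfl (fun n hn => abs_of_neg (not_le.mp (Finset.mem_filter.mp hn).2))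
    rw [h1, h2]
    have h3 := (abs_le.mp (hφ _ (Finset.filter_subset (fun n => 0 ≤ φ n) F))).2
    have h4 := (abs_le.mp (hφ _ (Finset.filter_subset (fun n => ¬ 0 ≤ φ n) F))).1
    linarith
  have hre := key (fun n => RCLike.re (z n)) (fun A hA => by
    have h1 := RCLike.abs_re_le_norm (∑ n ∈ A, z n)
    rw [map_sum] at h1
    exact h1.trans (hK A hA))
  have him := key (fun n => RCLike.im (z n)) (fun A hA => by
    have h1 := RCLike.abs_im_le_norm (∑ n ∈ A, z n)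
    rw [map_sum] at h1
    exact h1.trans (hK A hA))
  calc ∑ n ∈ F, ‖z n‖ ≤ ∑ n ∈ F, (|RCLike.re (z n)| + |RCLike.im (z n)|) :=
        Finset.sum_le_sum (fun n _ => by
          have h1 := norm_add_le ((RCLike.re (z n) : ℝ) : 𝕜) ((RCLike.im (z n) : ℝ) * RCLike.I)
          rw [RCLike.re_add_im, norm_mul, RCLike.norm_ofReal, RCLike.norm_ofReal] at h1
          have h2 : ‖(RCLike.I : 𝕜)‖ ≤ 1 := by
            rcases RCLike.I_eq_zero_or_im_I_eq_one (K := 𝕜) with h | h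
            · rw [h, norm_zero]; exact zero_le_one
            · exact (RCLike.norm_I_of_ne_zero (fun h0 => by
                rw [h0, map_zero] at h; exact zero_ne_one h)).le
          nlinarith [abs_nonneg (RCLike.im (z n))])
    _ = ∑ n ∈ F, |RCLike.re (z n)| + ∑ n ∈ F, |RCLike.im (z n)| := Finset.sum_add_distrib
    _ ≤ 4 * K := by linarith

/-- An infinite-dimensional Banach space with an unconditional basis fails the super alternative
Daugavet property. -/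
theorem result (𝕜 : Type*) [RCLike 𝕜] (X : Type*) [NormedAddCommGroup X] [NormedSpace 𝕜 X]
    [CompleteSpace X] (hinf : ¬ FiniteDimensional 𝕜 X) (β : Type*)
    (hb : Nonempty (UnconditionalSchauderBasis β 𝕜 X)) : ¬ SuperADP 𝕜 X := by
  classical
  intro h
  obtain ⟨b⟩ := hb
  obtain ⟨C, hC⟩ := b.exists_norm_proj_le
  have hC0 : 0 ≤ C := (norm_nonneg _).trans (hC ∅)
  obtain ⟨m, hm⟩ := exists_nat_gt (4 * C + 1)
  -- a unit vector
  obtain ⟨v, hv⟩ : ∃ v : X, v ≠ 0 := by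
    by_contra hcon
    push Not at hcon
    apply hinf
    have : Subsingleton X := ⟨fun a b => by rw [hcon a, hcon b]⟩
    infer_instance
  have hv' : 0 < ‖v‖ := norm_pos_iff.mpr hv
  obtain ⟨x', δ', hx', hδ', -, F, y, -, hFy, hy, hΨ⟩ :=
    main_claim b h hinf m (((‖v‖⁻¹ : ℝ) : 𝕜) • v) 1 ∅ 1
      (by rw [norm_smul, RCLike.norm_ofReal, abs_of_nonneg (by positivity),
        inv_mul_cancel₀ hv'.ne']) one_pos one_pos
  obtain ⟨Ψ, hΨ1, hΨ2⟩ := exists_dual_vector 𝕜 x' (by rw [hx']; exact one_ne_zero)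
  have hs : Slice x' δ' Ψ := by
    refine ⟨hΨ1.le, ?_⟩
    rw [hΨ2, hx']
    simp only [RCLike.ofReal_one, RCLike.one_re]
    linarith
  have h1 := (hΨ Ψ hs).2
  have h2 : V b F Ψ y ≤ 4 * C := by
    have h3 : V b F Ψ y = ∑ n ∈ F, ‖Ψ (b.coord n y • b n)‖ := by
      unfold V
      exact Finset.sum_congr rfl (fun n _ => by rw [map_smul, norm_smul])
    rw [h3]
    apply sum_norm_le_four
    intro A _
    rw [← map_sum, ← GeneralSchauderBasis.proj_apply]
    calc ‖Ψ (b.proj A y)‖ ≤ ‖Ψ‖ * ‖b.proj A y‖ := Ψ.le_opNorm _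
      _ ≤ 1 * (C * 1) := by
          apply mul_le_mul hΨ1.le _ (norm_nonneg _) zero_le_one
          refine ((b.proj A).le_opNorm y).trans ?_
          exact mul_le_mul (hC A) hy (norm_nonneg _) hC0
      _ = C := by ring
  linarith

end Pool.Agent.Results.MP_45e0c4_an.NoSuperADP
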